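import Pool.Agent.Lib.MP_77ebfb_ag.H10.Curve

/-!
# One curve blow-up: infinitely many classes downstairs

The definitions `TIso` (file `H10.Point`), `CurveBlowUp` and `MinimalNumbers` (file `H10.Curve`)
are in `Pool.Agent.Lib.MP_77ebfb_ag`.
-/

namespace Pool.Agent.Results.MP_77ebfb_ag.CurveContractions

open Pool.Agent.MP77.H10

/-- **Formal curve contractions are not finite in number.**  The one triple `(Z^3, F, p)`,
`F = 24 x^3 + 72 x^2 s - 21 x t^2 - 2 t^3`, `p = -21 x - 2 t`, is for every `n` the blow-up, by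
the formula for the blow-up of a smooth curve, of a triple `(Z^2, F0, q n)` with canonical class
`k n`, in a centre of class `C n`, of genus `g n` and with normal bundle of degree
`2 g - 2 - k.C = 2 = - E^3`; all the numbers satisfy the constraints of smooth minimal
threefolds of general type (`MinimalNumbers`, the Hodge index inequality, nonnegativity of the
curve on nef classes), and the `(Z^2, F0, q n)` are pairwise non-isomorphic. -/
theorem result :
    ∃ (B : ℤ × ℤ → ℤ × ℤ → ℤ × ℤ → ℤ) (q c : ℕ → ℤ × ℤ → ℤ) (k : ℕ → ℤ × ℤ)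
      (C : ℕ → (ℤ × ℤ →+ ℤ)) (g : ℕ → ℕ),
      (∀ n, MinimalNumbers B (q n) (c n) (k n)) ∧
      (∀ A D : ℤ × ℤ, 0 ≤ A.1 → 0 ≤ A.2 → B A A A * B A D D ≤ B A A D ^ 2) ∧
      (∀ n, ∀ D : ℤ × ℤ, 0 ≤ D.1 → 0 ≤ D.2 → 0 ≤ C n D) ∧
      (∀ n, ∀ D : ℤ × ℤ, 0 < D.1 → 0 < D.2 → 0 < C n D) ∧
      (∀ n, 2 * (g n : ℤ) - 2 - C n (k n) = 2) ∧
      (∀ n, CurveBlowUp (fun x => B x x x) (q n) (C n) (-2)
        (fun x : ℤ × ℤ × ℤ =>
          24 * x.1 ^ 3 + 72 * x.1 ^ 2 * x.2.1 - 21 * x.1 * x.2.2 ^ 2 - 2 * x.2.2 ^ 3)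
        (fun x : ℤ × ℤ × ℤ => -21 * x.1 - 2 * x.2.2)) ∧
      ∀ m n, m ≠ n → ¬ TIso (fun x => B x x x) (q m) (fun x => B x x x) (q n) := by
  refine ⟨B2, fun n => p2 n, fun n => c2 n, fun n => k2 n, fun n => Cj n,
    fun n => 9 + 144 * n, fun n => numbers n (by positivity), ?_, ?_, ?_, ?_,
    fun n => blow n, ?_⟩
  · rintro ⟨a, b⟩ ⟨x, s⟩ ha hb
    simp only [B2]
    have h : (24 * (a * a * x) + 24 * (a * a * s + a * b * x + b * a * x)) ^ 2
        - (24 * (a * a * a) + 24 * (a * a * b + a * b * a + b * a * a)) *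
          (24 * (a * x * x) + 24 * (a * x * s + a * s * x + b * x * x)) =
        (24 * a * (a * s - b * x)) ^ 2 := by ring
    nlinarith [sq_nonneg (24 * a * (a * s - b * x)), h]
  · intro n D h1 h2
    show 0 ≤ (7 + 144 * (n : ℤ)) * D.1
    positivity
  · intro n D h1 h2
    show 0 < (7 + 144 * (n : ℤ)) * D.1
    positivity
  · intro n
    show 2 * ((9 + 144 * n : ℕ) : ℤ) - 2 - (7 + 144 * (n : ℤ)) * 2 = 2
    push_cast; ring
  · intro m n hmn
    exact not_iso (by positivity) (by positivity) (by exact_mod_cast hmn)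

end Pool.Agent.Results.MP_77ebfb_ag.CurveContractions
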