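import Pool.Agent.Lib.MP_77ebfb_ag.H10.Contr

/-!
# Contractions of divisors to points: at most `2 ^ rank` classes downstairs

The definitions `TIso` (file `H10.Point`), `IsoVec`, `Reach` and `PointContraction`
(file `H10.Contr`) are in `Pool.Agent.Lib.MP_77ebfb_ag`.
-/

namespace Pool.Agent.Results.MP_77ebfb_ag.PointContractions

open Pool.Agent.MP77.H10 Module

/-- **Contractions to points, any discriminant.**  For a finitely generated abelian group `H`, a
symmetric trilinear form `B` on `H` and `p : H → ℤ` there are, up to isomorphism, at most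
`2 ^ rank H` triples obtained from `(H, x ↦ B x x x, p)` by contractions of divisors to
points. -/
theorem result {H : Type*} [AddCommGroup H] [Module.Finite ℤ H] (B : H →+ H →+ H →+ ℤ)
    (h12 : ∀ x y z, B x y z = B y x z) (h23 : ∀ x y z, B x y z = B x z y) (p : H → ℤ)
    {ι : Type*} (A : ι → Type*) [∀ i, AddCommGroup (A i)] (F0 p0 : ∀ i, A i → ℤ)
    (hb : ∀ i, PointContraction (F0 i) (p0 i) B p)
    (hne : ∀ i j, i ≠ j → ¬ TIso (F0 i) (p0 i) (F0 j) (p0 j)) :
    Finite ι ∧ Nat.card ι ≤ 2 ^ finrank ℤ H :=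
  contr_bound h12 h23 p A F0 p0 hb hne

end Pool.Agent.Results.MP_77ebfb_ag.PointContractions
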