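import Pool.Agent.Lib.MP_77ebfb_ag.H93.RankTwoC

/-!
# Triples of rank two: finitely many classes downstairs

The definitions `TIso` (file `H10.Point`), `CurveBlowUp` (file `H10.Curve`), `IsoVec`, `Reach`
and `PointContraction` (file `H10.Contr`) are in `Pool.Agent.Lib.MP_77ebfb_ag`.
-/

namespace Pool.Agent.Results.MP_77ebfb_ag.RankTwo

open Pool.Agent.MP77.H10 Module

/-- **Rank two, any discriminant.**  Let `H` be a finitely generated abelian group of rank two,
`B` a symmetric trilinear form and `p` a linear form on `H`.  Up to isomorphism there are only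
finitely many triples `(A, F0, p0)` with `F0` not identically zero that are obtained from
`(H, x ↦ B x x x, p)` by contractions of divisors to points (`(H, F, p)` itself included) or of
which it is the blow-up in a curve (of any class and any `e = E ^ 3`); if the cubic form has
discriminant zero, that is, `B v v x = 0` for all `x` for some `v` of infinite order, there are
at most three. -/
theorem result {H : Type*} [AddCommGroup H] [Module.Finite ℤ H] (hr : finrank ℤ H = 2)
    (B : H →+ H →+ H →+ ℤ) (h12 : ∀ x y z, B x y z = B y x z)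
    (h23 : ∀ x y z, B x y z = B x z y) (p : H →+ ℤ)
    {ι : Type*} (A : ι → Type*) [∀ i, AddCommGroup (A i)] (F0 p0 : ∀ i, A i → ℤ)
    (hF : ∀ i, ∃ a, F0 i a ≠ 0)
    (hb : ∀ i, PointContraction (F0 i) (p0 i) B p ∨
      ∃ (C : A i →+ ℤ) (e : ℤ), CurveBlowUp (F0 i) (p0 i) C e (fun x => B x x x) p)
    (hne : ∀ i j, i ≠ j → ¬ TIso (F0 i) (p0 i) (F0 j) (p0 j)) :
    Finite ι ∧
      ((∃ v : H, (∀ n : ℤ, n • v = 0 → n = 0) ∧ ∀ x, B v v x = 0) → Nat.card ι ≤ 3) :=
  Pool.Agent.MP77.H93.rank_two hr h12 h23 p A F0 p0 hF hb hne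

end Pool.Agent.Results.MP_77ebfb_ag.RankTwo
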